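import Mathlib
import Pool.Agent.R575.HY.Oracle

namespace Pool.Agent.Results.MP_db2a66_lc.HypReducesToIterates

open Pool.Agent.R575.HY

/-- The iterate `E^{+a}` depends only on `a`, and every hyperarithmetic equivalence relation on the
natural numbers is computably reducible to `id^{+a}` for some notation `a` in Kleene's O. -/
theorem result :
    (∀ (E : ℕ → ℕ → Prop) (a : ℕ) (p q : Ntn a), FS E p = FS E q) ∧
    (∀ E : ℕ → ℕ → Prop, Equivalence E → Hyperarithmetic {z | E z.unpair.1 z.unpair.2} →
      ∃ (a : ℕ) (p : Ntn a), CRed E (FS (fun n m => n = m) p)) :=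
  ⟨FS_indep, hyp_reduces⟩

end Pool.Agent.Results.MP_db2a66_lc.HypReducesToIterates
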